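import Mathlib
import Pool.Agent.V11268.EK.Normal

set_option autoImplicit false

namespace Pool.Agent.Results.MP_02e1b1_nt.NoUniformRate

open Finset Filter Topology

/-- `ω(⌊α n² + β n + γ⌋)`, the number of distinct primes dividing `⌊α n² + β n + γ⌋`. -/
noncomputable def omegaFloor (α β γ : ℝ) (n : ℕ) : ℕ :=
  (⌊α * (n : ℝ) ^ 2 + β * n + γ⌋₊).primeFactors.card

/-- The value at `n` of the normalised variable `(ω(⌊α n² + β n + γ⌋) - log log N) / √(log log N)`. -/
noncomputable def normalised (α β γ : ℝ) (N n : ℕ) : ℝ :=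
  ((omegaFloor α β γ n : ℝ) - Real.log (Real.log N)) / Real.sqrt (Real.log (Real.log N))

/-- The Kolmogorov distance `sup_x |P(X_N ≤ x) - P(Z ≤ x)|`, where `n` is uniform on
`{1, …, N}` and `Z` is standard normal. -/
noncomputable def dK (α β γ : ℝ) (N : ℕ) : ℝ :=
  ⨆ x : ℝ, |(((Icc 1 N).filter (fun n => normalised α β γ N n ≤ x)).card : ℝ) / N -
    (ProbabilityTheory.gaussianReal 0 1).real (Set.Iic x)|

/-- Admissible triples: `α > 0`, `β² < 4 α γ`, and `α`, `β` are not both rational. -/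
def Admissible (α β γ : ℝ) : Prop :=
  0 < α ∧ β ^ 2 < 4 * α * γ ∧ ¬ ((∃ r : ℚ, (r : ℝ) = α) ∧ (∃ r : ℚ, (r : ℝ) = β))

theorem le_dK (α β γ : ℝ) (N : ℕ) (x : ℝ) :
    |(((Icc 1 N).filter (fun n => normalised α β γ N n ≤ x)).card : ℝ) / N -
      (ProbabilityTheory.gaussianReal 0 1).real (Set.Iic x)| ≤ dK α β γ N := by
  refine le_ciSup (f := fun x : ℝ =>
    |(((Icc 1 N).filter (fun n => normalised α β γ N n ≤ x)).card : ℝ) / N -
      (ProbabilityTheory.gaussianReal 0 1).real (Set.Iic x)|) ?_ x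
  refine ⟨1, ?_⟩
  rintro _ ⟨y, rfl⟩
  have h1 : (((Icc 1 N).filter (fun n => normalised α β γ N n ≤ y)).card : ℝ) / N ≤ 1 := by
    refine div_le_one_of_le₀ ?_ (Nat.cast_nonneg N)
    have := card_filter_le (Icc 1 N) (fun n => normalised α β γ N n ≤ y)
    rw [Nat.card_Icc, Nat.add_sub_cancel] at this
    exact_mod_cast this
  have h2 : (0 : ℝ) ≤ (((Icc 1 N).filter (fun n => normalised α β γ N n ≤ y)).card : ℝ) / N := by
    positivity
  have h3 : (ProbabilityTheory.gaussianReal 0 1).real (Set.Iic y) ≤ 1 :=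
    MeasureTheory.measureReal_le_one
  have h4 : 0 ≤ (ProbabilityTheory.gaussianReal 0 1).real (Set.Iic y) :=
    MeasureTheory.measureReal_nonneg
  rw [abs_le]
  constructor <;> linarith

theorem exists_quantile (ε : ℝ) (hε : 0 < ε) :
    ∃ x : ℝ, 1 - ε ≤ (ProbabilityTheory.gaussianReal 0 1).real (Set.Iic x) := by
  have h := MeasureTheory.tendsto_measure_Iic_atTop (ProbabilityTheory.gaussianReal 0 1)
  rw [MeasureTheory.measure_univ] at h
  have h1 : Tendsto (fun x : ℝ => (ProbabilityTheory.gaussianReal 0 1).real (Set.Iic x)) atTop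
      (𝓝 1) := by
    have := (ENNReal.tendsto_toReal ENNReal.one_ne_top).comp h
    rw [ENNReal.toReal_one] at this
    exact this
  exact (h1.eventually (eventually_ge_nhds (by linarith : 1 - ε < 1))).exists

/-- The value of the floor at multiples of the denominator. -/
theorem floor_mul (p q m : ℕ) (hq : 1 ≤ q) :
    ⌊((p : ℝ) / q) * ((q * m : ℕ) : ℝ) ^ 2 + 1 * ((q * m : ℕ) : ℝ) + 1 / 2⌋₊ =
      q * (m * (p * m + 1)) := by
  have hq0 : (q : ℝ) ≠ 0 := by
    have : q ≠ 0 := by omega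
    exact_mod_cast this
  have h : ((p : ℝ) / q) * ((q * m : ℕ) : ℝ) ^ 2 + 1 * ((q * m : ℕ) : ℝ) + 1 / 2 =
      ((q * (m * (p * m + 1)) : ℕ) : ℝ) + 1 / 2 := by
    push_cast
    field_simp
  rw [h, Nat.floor_eq_iff (by positivity)]
  constructor <;> linarith

theorem rational_case (p q : ℕ) (hp : 1 ≤ p) (hq : 1 ≤ q) : ∃ c : ℝ, 0 < c ∧ ∀ᶠ N : ℕ in atTop,
    c ≤ dK ((p : ℝ) / q) 1 (1 / 2) N := by
  have hq0 : (0 : ℝ) < q := by exact_mod_cast hq
  obtain ⟨x0, hx0⟩ := exists_quantile (1 / (8 * q)) (by positivity)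
  refine ⟨1 / (4 * q), by positivity, ?_⟩
  have h1 := V11268.EK.few_small 1 0 q le_rfl hq
  have h2 := V11268.EK.few_small p 1 q hp hq
  have h3 := V11268.EK.tendsto_loglog.eventually (eventually_gt_atTop (max 1 (4 * x0 ^ 2)))
  filter_upwards [h1, h2, h3, eventually_ge_atTop (2 * q)] with N h1 h2 h3 h4
  set L : ℝ := Real.log (Real.log N) with hL
  have hL1 : 1 < L := lt_of_le_of_lt (le_max_left _ _) h3
  have hLx : 4 * x0 ^ 2 < L := lt_of_le_of_lt (le_max_right _ _) h3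
  obtain ⟨M, hM⟩ : ∃ M, M = N / q := ⟨_, rfl⟩
  rw [← hM] at h1 h2
  have hNpos : 0 < N := by omega
  have hN0 : (0 : ℝ) < N := by exact_mod_cast hNpos
  -- the set of `n` with `X_N ≤ x0`
  set A := (Icc 1 N).filter (fun n => normalised ((p : ℝ) / q) 1 (1 / 2) N n ≤ x0) with hA
  -- the good `m`
  set B1 := (Icc 1 M).filter (fun m => ((1 * m + 0).primeFactors.card : ℝ) < 3 / 4 * L) with hB1
  set B2 := (Icc 1 M).filter (fun m => ((p * m + 1).primeFactors.card : ℝ) < 3 / 4 * L) with hB2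
  set G := (Icc 1 M) \ (B1 ∪ B2) with hG
  have hGcard : (3 / 4 : ℝ) * M ≤ G.card := by
    have h5 : (Icc 1 M).card ≤ (B1 ∪ B2).card + G.card := by
      rw [hG, add_comm, ← Nat.sub_le_iff_le_add]
      exact le_card_sdiff _ _
    have h6 : (B1 ∪ B2).card ≤ B1.card + B2.card := card_union_le _ _
    rw [Nat.card_Icc, Nat.add_sub_cancel] at h5
    have h7 : (M : ℝ) ≤ B1.card + B2.card + G.card := by
      exact_mod_cast h5.trans (Nat.add_le_add_right h6 _)
    linarith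
  have hinj : Set.InjOn (fun m : ℕ => q * m) (G : Set ℕ) := by
    intro a _ b _ hab
    exact Nat.eq_of_mul_eq_mul_left (by omega) hab
  have hdisj : Disjoint A (G.image (fun m => q * m)) := by
    rw [Finset.disjoint_left]
    intro n hn hn'
    rw [mem_image] at hn'
    obtain ⟨m, hm, rfl⟩ := hn'
    rw [hG, Finset.mem_sdiff, mem_union, not_or, hB1, hB2, mem_filter, mem_filter] at hm
    obtain ⟨hmI, hm1, hm2⟩ := hm
    have e1 : 3 / 4 * L ≤ ((m.primeFactors.card : ℕ) : ℝ) := by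
      by_contra hcon
      exact hm1 ⟨hmI, by simpa using not_le.mp hcon⟩
    have e2 : 3 / 4 * L ≤ (((p * m + 1).primeFactors.card : ℕ) : ℝ) := by
      by_contra hcon
      exact hm2 ⟨hmI, not_le.mp hcon⟩
    rw [mem_Icc] at hmI
    have hom : m.primeFactors.card + (p * m + 1).primeFactors.card ≤
        omegaFloor ((p : ℝ) / q) 1 (1 / 2) (q * m) := by
      have hcop : Nat.Coprime m (p * m + 1) := by
        rw [Nat.coprime_mul_right_add_right]
        exact Nat.coprime_one_right m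
      have h8 : (m * (p * m + 1)).primeFactors.card =
          m.primeFactors.card + (p * m + 1).primeFactors.card := by
        rw [hcop.primeFactors_mul, card_union_of_disjoint hcop.disjoint_primeFactors]
      rw [← h8, omegaFloor, floor_mul p q m hq]
      refine card_le_card (Nat.primeFactors_mono (dvd_mul_left _ _) ?_)
      have : 0 < m := hmI.1
      positivity
    rw [hA, mem_filter] at hn
    have hX := hn.2
    rw [normalised, ← hL] at hX
    have hsq : 0 < Real.sqrt L := Real.sqrt_pos.mpr (by linarith)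
    rw [div_le_iff₀ hsq] at hX
    have hom' : (3 / 2 : ℝ) * L ≤ (omegaFloor ((p : ℝ) / q) 1 (1 / 2) (q * m) : ℝ) := by
      have : ((m.primeFactors.card + (p * m + 1).primeFactors.card : ℕ) : ℝ) ≤
          (omegaFloor ((p : ℝ) / q) 1 (1 / 2) (q * m) : ℝ) := by exact_mod_cast hom
      push_cast at this
      linarith
    have hss : Real.sqrt L * Real.sqrt L = L := Real.mul_self_sqrt (by linarith)
    have h9 : Real.sqrt L * (Real.sqrt L / 2) ≤ x0 * Real.sqrt L := by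
      have : Real.sqrt L * (Real.sqrt L / 2) = L / 2 := by rw [← mul_div_assoc, hss]
      rw [this]; linarith
    have h10 : Real.sqrt L / 2 ≤ x0 := by
      rw [mul_comm x0] at h9
      exact le_of_mul_le_mul_left h9 hsq
    have h11 : L / 4 ≤ x0 ^ 2 := by
      have h12 : (Real.sqrt L / 2) ^ 2 ≤ x0 ^ 2 := pow_le_pow_left₀ (by positivity) h10 2
      rw [div_pow, sq (Real.sqrt L), hss] at h12
      linarith
    linarith
  have hsubset : A ∪ G.image (fun m => q * m) ⊆ Icc 1 N := by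
    intro n hn
    rw [mem_union] at hn
    rcases hn with hn | hn
    · exact (mem_filter.mp hn).1
    · rw [mem_image] at hn
      obtain ⟨m, hm, rfl⟩ := hn
      rw [hG, Finset.mem_sdiff, mem_Icc] at hm
      rw [mem_Icc]
      refine ⟨Nat.mul_pos hq hm.1.1, ?_⟩
      calc q * m ≤ q * M := Nat.mul_le_mul_left _ hm.1.2
        _ ≤ N := by rw [hM]; exact Nat.mul_div_le N q
  have hcard := card_le_card hsubset
  rw [card_union_of_disjoint hdisj, card_image_of_injOn hinj, Nat.card_Icc,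
    Nat.add_sub_cancel] at hcard
  have hcard' : (A.card : ℝ) + G.card ≤ N := by exact_mod_cast hcard
  have hMN : (N : ℝ) / (2 * q) ≤ M := by
    have h5 : N < q * (M + 1) := by
      rw [hM, mul_comm]
      exact Nat.lt_mul_of_div_lt (Nat.lt_succ_self _) hq
    have h6 : (N : ℝ) < q * (M + 1) := by exact_mod_cast h5
    have h7 : (2 : ℝ) * q ≤ N := by exact_mod_cast h4
    rw [div_le_iff₀ (by positivity)]
    nlinarith
  have hfin : (A.card : ℝ) / N ≤ 1 - 3 / (8 * q) := by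
    rw [div_le_iff₀ hN0]
    have h5 : (N : ℝ) / (2 * q) * (3 / 4) = 3 / (8 * q) * N := by
      field_simp; ring
    nlinarith
  have habs := neg_abs_le ((A.card : ℝ) / N -
    (ProbabilityTheory.gaussianReal 0 1).real (Set.Iic x0))
  have hle := le_dK ((p : ℝ) / q) 1 (1 / 2) N x0
  rw [← hA] at hle
  have e3 : (3 : ℝ) / (8 * q) - 1 / (8 * q) = 1 / (4 * q) := by
    field_simp; norm_num
  linarith

theorem floor_right (α₀ : ℝ) (hα : 0 < α₀) (n : ℕ) : ∀ᶠ α in 𝓝[>] α₀,
    ⌊α * (n : ℝ) ^ 2 + 1 * n + 1 / 2⌋₊ = ⌊α₀ * (n : ℝ) ^ 2 + 1 * n + 1 / 2⌋₊ := by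
  have hpos : (0 : ℝ) ≤ α₀ * (n : ℝ) ^ 2 + 1 * n + 1 / 2 := by positivity
  have h1 := Nat.floor_le hpos
  have h2 := Nat.lt_floor_add_one (α₀ * (n : ℝ) ^ 2 + 1 * n + 1 / 2)
  have hcont : ContinuousAt (fun α : ℝ => α * (n : ℝ) ^ 2 + 1 * n + 1 / 2) α₀ := by fun_prop
  have h3 : ∀ᶠ α in 𝓝[>] α₀, α * (n : ℝ) ^ 2 + 1 * n + 1 / 2 <
      (⌊α₀ * (n : ℝ) ^ 2 + 1 * n + 1 / 2⌋₊ : ℝ) + 1 :=
    (hcont.eventually (gt_mem_nhds h2)).filter_mono nhdsWithin_le_nhds
  filter_upwards [h3, self_mem_nhdsWithin] with α h3 h4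
  have h5 : α₀ < α := h4
  have h6 : α₀ * (n : ℝ) ^ 2 ≤ α * (n : ℝ) ^ 2 :=
    mul_le_mul_of_nonneg_right h5.le (by positivity)
  have hpos' : (0 : ℝ) ≤ α * (n : ℝ) ^ 2 + 1 * n + 1 / 2 := by linarith
  rw [Nat.floor_eq_iff hpos']
  constructor
  · linarith
  · exact h3

theorem dK_right (α₀ : ℝ) (hα : 0 < α₀) (N : ℕ) : ∀ᶠ α in 𝓝[>] α₀,
    dK α 1 (1 / 2) N = dK α₀ 1 (1 / 2) N := by
  have h : ∀ᶠ α in 𝓝[>] α₀, ∀ n ∈ Icc 1 N,
      ⌊α * (n : ℝ) ^ 2 + 1 * n + 1 / 2⌋₊ = ⌊α₀ * (n : ℝ) ^ 2 + 1 * n + 1 / 2⌋₊ :=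
    (Finset.eventually_all (Icc 1 N)).mpr fun n _ => floor_right α₀ hα n
  filter_upwards [h] with α h
  rw [dK, dK]
  congr 1
  ext x
  congr 3
  congr 1
  refine congrArg Finset.card (filter_congr fun n hn => ?_)
  rw [normalised, normalised, omegaFloor, omegaFloor, h n hn]

/-- No uniform Erdős–Kac rate for floors of irreducible real quadratics: for every sequence `η`
tending to `0` there is an admissible triple `(α, β, γ)` such that the Kolmogorov distance between
the law of `(ω(⌊α n² + β n + γ⌋) - log log N) / √(log log N)`, `n` uniform on `{1, …, N}`, and the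
standard normal law is not `O(η_N)`. -/
theorem result : ∀ η : ℕ → ℝ, Tendsto η atTop (𝓝 0) →
    ∃ α β γ : ℝ, Admissible α β γ ∧ ¬ (fun N : ℕ => dK α β γ N) =O[atTop] η := by
  intro η hη
  -- the sets `G k`
  let G : ℕ → Set ℝ := fun k => {α | ∃ N : ℕ, k ≤ N ∧ (k : ℝ) * |η N| < dK α 1 (1 / 2) N}
  have hG : ∀ (k : ℕ) (r : ℚ), 0 < r → G k ∈ 𝓝[>] (r : ℝ) := by
    intro k r hr
    obtain ⟨p, hp⟩ : ∃ p : ℕ, (p : ℤ) = r.num := by
      have := Rat.num_pos.mpr hr
      exact ⟨r.num.toNat, Int.toNat_of_nonneg this.le⟩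
    have hp1 : 1 ≤ p := by
      have := Rat.num_pos.mpr hr
      omega
    have hr' : (r : ℝ) = (p : ℝ) / r.den := by
      have h1 : (r : ℝ) = (r.num : ℝ) / (r.den : ℝ) := by exact_mod_cast (Rat.num_div_den r).symm
      rw [h1, ← hp]; norm_num
    obtain ⟨c, hc, hev⟩ := rational_case p r.den hp1 r.den_pos
    have hlim : Tendsto (fun N => (k : ℝ) * |η N|) atTop (𝓝 0) := by
      have := (hη.abs).const_mul (k : ℝ)
      simpa using this
    have hev2 := hlim.eventually (gt_mem_nhds hc)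
    obtain ⟨N, ⟨hN1, hN2⟩, hN3⟩ := ((hev.and hev2).and (eventually_ge_atTop k)).exists
    rw [← hr'] at hN1
    have hr0 : (0 : ℝ) < r := by exact_mod_cast hr
    filter_upwards [dK_right r hr0 N] with α hα
    exact ⟨N, hN3, by rw [hα]; linarith⟩
  have hopen : ∀ k, IsOpen (interior (G k ∪ Set.Iic 1)) := fun k => isOpen_interior
  have hdense : ∀ k, Dense (interior (G k ∪ Set.Iic 1)) := by
    intro k
    rw [dense_iff_inter_open]
    intro O hO hne
    by_cases hO1 : (O ∩ Set.Ioi 1).Nonempty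
    · have hOpen : IsOpen (O ∩ Set.Ioi (1 : ℝ)) := hO.inter isOpen_Ioi
      obtain ⟨r, hr⟩ := (Rat.denseRange_cast (𝕜 := ℝ)).exists_mem_open hOpen hO1
      have hr1 : (1 : ℝ) < r := hr.2
      have hr0 : 0 < r := by
        have : (0 : ℝ) < r := by linarith
        exact_mod_cast this
      obtain ⟨u, hu, hsub⟩ := (mem_nhdsGT_iff_exists_Ioo_subset).mp (hG k r hr0)
      have h1 : O ∩ Set.Ioo (r : ℝ) u ∈ 𝓝[>] (r : ℝ) :=
        inter_mem (mem_nhdsWithin_of_mem_nhds (hO.mem_nhds hr.1)) (Ioo_mem_nhdsGT hu)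
      obtain ⟨x, hx1, hx2⟩ := Filter.nonempty_of_mem h1
      refine ⟨x, hx1, ?_⟩
      exact interior_maximal (hsub.trans Set.subset_union_left) isOpen_Ioo hx2
    · have hsub : O ⊆ Set.Iic 1 := by
        intro x hx
        by_contra hcon
        exact hO1 ⟨x, hx, Set.notMem_Iic.mp hcon⟩
      have h1 : O ⊆ interior (G k ∪ Set.Iic 1) :=
        interior_maximal (hsub.trans Set.subset_union_right) hO
      obtain ⟨x, hx⟩ := hne
      exact ⟨x, hx, h1 hx⟩
  have hGδ : IsGδ (⋂ k, interior (G k ∪ Set.Iic 1)) :=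
    IsGδ.iInter fun k => (hopen k).isGδ
  have hD := dense_iInter_of_isOpen_nat hopen hdense
  have hD2 := hD.inter_of_Gδ hGδ IsGδ.setOfPred_irrational dense_irrational
  obtain ⟨α, hα1, hαG, hαirr⟩ := hD2.inter_open_nonempty (Set.Ioi (1 : ℝ)) isOpen_Ioi ⟨2, by norm_num⟩
  have hα1' : 1 < α := hα1
  refine ⟨α, 1, 1 / 2, ⟨by linarith, by linarith, ?_⟩, ?_⟩
  · rintro ⟨⟨r, hr⟩, -⟩
    exact hαirr ⟨r, hr⟩
  · intro hO
    obtain ⟨C, hC⟩ := hO.bound
    obtain ⟨N0, hN0⟩ := eventually_atTop.mp hC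
    obtain ⟨k, hk⟩ := exists_nat_ge (max C N0)
    have hkC : C ≤ k := (le_max_left _ _).trans hk
    have hkN : N0 ≤ k := by exact_mod_cast (le_max_right _ _).trans hk
    have hmem := interior_subset (Set.mem_iInter.mp hαG k)
    rcases hmem with ⟨N, hN1, hN2⟩ | h
    · have h1 := hN0 N (hkN.trans hN1)
      rw [Real.norm_eq_abs, Real.norm_eq_abs] at h1
      have h2 := le_abs_self (dK α 1 (1 / 2) N)
      have h3 : C * |η N| ≤ k * |η N| := mul_le_mul_of_nonneg_right hkC (abs_nonneg _)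
      linarith
    · exact absurd h (not_le.mpr hα1')

end Pool.Agent.Results.MP_02e1b1_nt.NoUniformRate
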